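import Mathlib
import Pool.Agent.V1168.EF.Mot
import Pool.Agent.V1168.EF.Rel

/-!
# Rational and numerical equivalence on the products of arbitrary varieties with abelian varieties:
the exceptional factors have small dimension

Let `K i` (`i` in a set `I`, which may be **infinite**) be CM fields with pair flips (`PairFlips`): for
any two complex embeddings `φ` of `K i` and `ψ` of `K k` (with `i = k` or not) which are neither equal
nor complex conjugate, some automorphism of `ℂ` is the identity on `φ (K i)` and the complex conjugation
on `ψ (K k)`. One CM field `K` of degree `2 g` has this property if the Galois group of its normal
closure is the largest possible one (of order `2 ^ g g!`), or contains, for each pair of complex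
conjugate embeddings, an element which exchanges them and fixes all other embeddings, or contains all
the automorphisms that exchange two pairs in this sense (`g > 2`); several such fields with linearly
disjoint normal closures have it together (for example there are infinite families of imaginary
quadratic fields). We fix an isomorphism `ν` of the algebraic closure of `ℚ_p` with `ℂ`; it defines a
`p`-adic valuation `v` of `ℂ` with `v p = 1`. Let `π i` be a Weil number for `q = p ^ a` in `K i` whose
slope vector, the function `2 v (φ π) - a` on the complex embeddings `φ` (`slopeVector`), is not zero
(there are no other conditions on the slopes).

For finite subsets `J` of `I` let `f i`, `i` in `J`, be monic polynomials whose complex roots are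
conjugates of `π i` (`IsPolyOf`), for instance the characteristic polynomials of Frobenius of the abelian
varieties in the isogeny classes of the `π i` over the field with `q` elements. Let `A` be an abelian
variety over the field with `Q = q ^ s` elements which is isogenous to a product of powers of abelian
varieties coming from the field with `q` elements, with characteristic polynomials `f i`, `i` in `J`
(`IsAbelian`).

Let `Ω` be a finite set of complex numbers, stable under the automorphisms of `ℂ`, whose elements are
nonzero and lie in CM fields or in totally real fields (`IsStable`). A number `ρ` is generated by `Ω`
(`Generated p Ω`) if it is not zero and a power of it is a product of powers of elements of `Ω` and of a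
power of `p`. Let `Z` be **any** smooth
projective variety over the field with `Q` elements such that

* the eigenvalues of Frobenius on the cohomology of `Z` are generated by `Ω`;
* homologically trivial self-correspondences of degree zero of `A × Z` are nilpotent, for instance
  the motive of `Z` is finite-dimensional in the sense of Kimura and O'Sullivan. This is known for
  all varieties dominated by products of curves, and for their products with `A`.

**The theorem: there is a finite subset `S` of `I` with `∑ [K i : ℚ] ≤ |Ω|`, the sum over `i` in `S`,
such that for all finite sets `J` disjoint from `S`, all `f i`, `s`, `A` and `Z` as above the
statement below is true.** The set `S` depends only on `Ω` and the `π i`, and not on the powers of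
the abelian varieties, on the finite field or on `Z`. The Frobenius eigenvalues on the cohomology of
varieties are Weil numbers, by Deligne, and so they form a set like `Ω`; for varieties dominated by
products of curves or by abelian varieties the eigenvalues on `H^1` of the factors are sufficient.
So if `B i` are the simple abelian varieties of the `π i` (of dimension `[K i : ℚ] / 2`, for instance
if they are ordinary), **the exceptional ones have together at most the dimension `|Ω| / 2`,
whatever the abelian varieties are.** The bound is sharp: for `B 1 × ⋯ × B r` (and its powers) `Ω` has
`2 ∑ dim B i` elements, and all the `B i` are exceptional: there are divisor classes in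
`H^1(B i) ⊗ H^1(B 1 × ⋯ × B r)`. My `AllCMTypesTimes` is about the case that the Frobenius eigenvalues
are unrelated to the fields `K i`. **Here they are arbitrary**: they may generate the same fields `K i`,
or fields containing them.

There are finitely many products `D j` of divisors on `A`, of codimension `c j`, such that
`CH^n(A × Z)_ℚ = ⨁ D j × CH^(n - c j)(Z)_ℚ` for all `n`, and **the pairing**
`CH^n(A × Z)_ℝ × CH^(d-n)(A × Z)_ℝ → ℝ`, `d = dim A + dim Z`, **of the question is perfect if and
only if the pairings** `CH^m(Z)_ℝ × CH^(dim Z - m)(Z)_ℝ → ℝ` **with** `n - dim A ≤ m ≤ n` **are
perfect.** In particular the conjecture of Beilinson for `A × Z` is equivalent to the one for `Z`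
(also in the form: rational and numerical equivalence coincide). For `Z` a curve or a surface with the
two properties all pairings for `Z` are perfect, by the theorems quoted in the question, and so are
all pairings for `A × Z`.

The framework (`TheoryData`, `IsChow`, `IsWeil`) is the one of helper492: the Chow groups `C` with
their pull-backs, push-forwards and products, and a Weil cohomology theory `H` with coefficients in
an algebraically closed field, on a class `𝒱` of smooth proper varieties over `k`. The space `CH^n(X)_ℝ` is
`ℝ ⊗ CH^n(X)`. The starting file `AlmostAllAbelianPerfect` is about almost all abelian varieties over
the fields with `q` elements, `q → ∞`.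

The proof. Let `x i` be the slope vectors of the `π i`. If a product of a number `ρ` generated by `Ω`
and of roots of the `f i`, no two of them complex conjugate, is a power of `q` up to a root of unity,
then, computing valuations, there are odd functions `n i` on the embeddings of the `K i`, not all zero,
such that the function `σ ↦ ∑ n i φ * x i (σ φ)` of the automorphisms `σ` of `ℂ` (the sum over all `i` and
all embeddings `φ`) is in the space `F` spanned by the functions `σ ↦ v (σ β) - v (conj (σ β))`, `β` in
`Ω`. This space is stable under translations. So we can average over the automorphisms which fix a
given embedding `φ₀` of `K i`: by the pair flips the average of an odd function is zero except at `φ₀`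
and its conjugate, so that the function `σ ↦ x i (σ φ₀)` is in `F` if `n i φ₀` is not zero, and then the
same is true for all embeddings of this field `K i` (`EF.orb_mem`). Let `S` be the set of all `i` such
that these functions are in `F`. Again by the pair flips, the functions `σ ↦ x i (σ φ)`, for all `i` and
one `φ` out of each complex conjugate pair, are linearly independent. As the dimension of `F` is at most
`|Ω| / 2` (conjugate `β` give opposite functions), `∑ [K i : ℚ] / 2`, the sum over `S`, is at most
`|Ω| / 2` (`EF.exists_exceptional`), and outside of `S` there are no such relations
(`EF.exactPair_of`).
The generalized eigenvectors of Frobenius in the cohomology of `A × Z` for the eigenvalues `Q ^ i` are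
therefore sums of products of classes of products of divisors on `A` and of classes on `Z`. Let `p`
be the projector given by dual systems of products of divisors on `A`, and `P` a polynomial killing
all the other eigenvalues and with `P (Q ^ i) = 1`. The correspondence `(1 - p) P (F)` is
homologically trivial, hence nilpotent; as it acts on the part of weight `i` as the idempotent
`1 - p`, this idempotent is zero. (The idea to play the eigenvalues of Frobenius off against
nilpotence is due to Soule, Geisser and Kahn.)
So `CH^n(A × Z)_ℚ` is the sum of the `CH^(n - c j)(Z)_ℚ`, and the pairing of the question for
`A × Z` is the orthogonal sum of the pairings for `Z`; every `m` with `n - dim A ≤ m ≤ n` occurs.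
-/

set_option autoImplicit false

namespace Pool.Agent.Results.MP_4960c7_ag.EveryVarietyTimes

open NumberField Pool.Agent.V1168.EF
open Pool.Agent.V1168.EV (PairFlips slopeVector)

/-- **The pairing of codimension `n` for `A × Z` is perfect if and only if the ones of the codimensions
`n - dim A, ..., n` for `Z` are, for all `Z`
with Frobenius eigenvalues generated by the stable finite set `Ω` and all abelian varieties `A` given
by Weil numbers in a family of CM fields with pair flips, without factors in an exceptional set `S`
with `∑ [K i : ℚ] ≤ |Ω|`.** -/
theorem result {p : ℕ} [Fact p.Prime] (ν : PadicAlgCl p ≃+* ℂ) {I : Type}
    (K : I → Type) [∀ i, Field (K i)] [∀ i, NumberField (K i)] [∀ i, IsCMField (K i)]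
    (hK : PairFlips K) (a : ℕ) (ha : 0 < a) (π : ∀ i, K i)
    (hπ : ∀ i, π i * IsCMField.complexConj (K i) (π i) = (p : K i) ^ a)
    (hs : ∀ i, ∃ φ, slopeVector ν a (π i) φ ≠ 0) (Ω : Finset ℂ) (hΩ : IsStable Ω) :
    ∃ S : Finset I, ∑ i ∈ S, Module.finrank ℚ (K i) ≤ Ω.card ∧
      ForAllPolys π (p ^ a) S (fun _ q f => PairingProd p Ω q f) := by
  obtain ⟨S, hS, h⟩ := exists_factors ν hK ha hπ hs hΩ
  exact ⟨S, hS, h _ fun J q f hq hR => pairingProd hq hR⟩

end Pool.Agent.Results.MP_4960c7_ag.EveryVarietyTimes
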