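import Pool.Agent.H255R.MR.Adeq

/-!
# Rational and numerical equivalence for products of regular surfaces and of curves
-/

open CategoryTheory AlgebraicGeometry

universe u v w

namespace Pool.Agent.Results.MP_4960c7_ag.RegularSurfaces

open Pool.Agent.H914 Pool.Agent.H914.VarClass Pool.Agent.H914.VarClass.Obj Pool.Agent.W492.BB
  Pool.Agent.W550.Corr Pool.Agent.TH133 Pool.Agent.TH829.Prime Pool.Agent.H255R.HR Pool.Agent.H255R.MR

/-- Rational and numerical equivalence, with rational coefficients, agree on the cycles of codimension
at most `R` on `X`. -/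
def RatIsNum {k : Type u} [Field k] {𝒱 : VarClass k} (C : TheoryData.{u, v, 0} 𝒱 ℚ)
    (R : ℤ) (X : 𝒱.Obj) : Prop :=
  ∀ r ≤ R, ∀ a : C.A X, C.Deg r a → NumTrivial C r a → a = 0

/-- Consider the smooth projective varieties over the algebraic closure of a finite field. (The
rational Chow groups satisfy Galois descent, and the groups of cycles modulo numerical equivalence
are finite-dimensional; therefore the pairings of the problem are perfect for all models of `X`
over finite fields and in all codimensions if and only if `RatIsNum` holds for `X` and all `R`.)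
Let `𝒞` be a class of curves with `HasGalQuotients` (for example the elliptic and the hyperelliptic
curves, or one hyperelliptic curve). For all varieties `U` and all `R` and `N` the following
statements are equivalent.

1. Rational and numerical equivalence in codimension at most `R` agree on the varieties `U × A` and `U × A × S`,
where `A` is a product of at most `N` regular surfaces dominated by products of two curves in `𝒞`,
and `S` is a curve in `𝒞`.
2. The same without the condition that the surfaces be regular.
3. Rational and numerical equivalence in codimension at most `R` agree on `U × W`, where `W` is a product of at most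
`2 N + 1` curves in `𝒞`.
4. Rational and numerical equivalence in codimension at most `R` agree on all varieties which are dominated by varieties
`U × W` as in 3. -/
theorem result {k : Type u} [Field k] {𝒱 : VarClass k} (C : TheoryData.{u, v, 0} 𝒱 ℚ)
    [IsChowProj C] (hC : IsModTheory (chowMod C)) {F : Type w} [Field F] [CharZero F]
    (H : WeilTheoryData.{u, v, w} C F) [IsWeilProj H] (𝒞 : 𝒱.Obj → Prop)
    (hG : HasGalQuotients.{u, v, w, v} H 𝒞) (U : 𝒱.Obj) (R : ℤ) (N : ℕ) :
    List.TFAE [
      ∀ m ≤ N, ∀ A : 𝒱.Obj, IsProdOf U (IsRegDominated.{u, v, w, v} H 𝒞) m A →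
        RatIsNum C R A ∧ ∀ S : 𝒱.Obj, 𝒞 S → RatIsNum C R (A.prod S),
      ∀ m ≤ N, ∀ A : 𝒱.Obj, IsProdOf U (IsDominated.{u, v, v} C 𝒞) m A →
        RatIsNum C R A ∧ ∀ S : 𝒱.Obj, 𝒞 S → RatIsNum C R (A.prod S),
      ∀ l ≤ 2 * N + 1, ∀ W : 𝒱.Obj, IsProdOf U 𝒞 l W → RatIsNum C R W,
      ∀ l ≤ 2 * N + 1, ∀ W X : 𝒱.Obj, IsProdOf U 𝒞 l W → IsDominatedBy C W X → RatIsNum C R X] :=
  tfae1 (M := chowMod C) (𝓜 := adFam (isAdequate_numFam (one_ne H))) (𝓝 := zeroFam (chowMod C))
    hG U R N _ fun _ => ⟨fun h r hr a ha => h r hr a ha.1 ha.2,
      fun h r hr a ha h0 => h r hr a ⟨ha, h0⟩⟩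

end Pool.Agent.Results.MP_4960c7_ag.RegularSurfaces
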